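import Pool.Agent.H842R3.BogoD

/-!
# The constant width polynomial Bogolyubov statement for dense sets of integers is false

For all constants `c > 0` and `C` there are `N` and a set `A ⊆ [N]` of density
`α ∈ (0, 1/2]` such that `2A - 2A` contains no Bohr set `B(Θ, ρ; N)` of width `ρ ≥ c` and
dimension `|Θ| ≤ C log (1/α)`.

Idea of the proof.  Write integers in base `8H + 1` with `d` digits.  The set `A` consists of the
integers whose digit vector (up to a shift) lies in `[-H, H]^d` and satisfies `|⟨u_j, y⟩| ≤ T` for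
`J` random sign vectors `u_j`, where `J` is polynomial in `d` and `T` is about `H √(d log J)`.  By
Hoeffding's inequality `A` has density at least `4^(-d) / 2`.  A Bohr set of dimension `O(d)` and
constant width has density at least `exp(-O(d))` by pigeonhole; if it lies in `2A - 2A`, its digit
vectors form a subset of `[-4H, 4H]^d` of density `exp(-O(d))`, and by the Sauer-Shelah lemma at
least half of all sign vectors `u` have `|⟨u, z⟩| > 4T` for some element `z` of such a set.  There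
are few Bohr sets, so a union bound over them and the choice of `J` finish the proof.
-/

namespace Pool.Agent.Results.MP_3c7b25_co.BogolyubovFails

/-- The Bohr set `B(Θ, ρ; N) = {n ∈ ℤ : |n| ≤ N, ‖nθ‖ ≤ ρ for all θ ∈ Θ}`, where `Θ` is a finite
subset of `ℝ/ℤ` and the norm on `ℝ/ℤ` is the distance to the nearest integer. -/
def bohr (Θ : Finset UnitAddCircle) (ρ : ℝ) (N : ℕ) : Set ℤ :=
  {n | |n| ≤ (N : ℤ) ∧ ∀ θ ∈ Θ, ‖n • θ‖ ≤ ρ}

/-- The set `2A - 2A`. -/
def twoAMinusTwoA (A : Finset ℤ) : Set ℤ :=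
  {n | ∃ a₁ ∈ A, ∃ a₂ ∈ A, ∃ a₃ ∈ A, ∃ a₄ ∈ A, n = a₁ + a₂ - a₃ - a₄}

/-- The density `|A| / N` of a set `A ⊆ [N]`. -/
noncomputable def density (A : Finset ℤ) (N : ℕ) : ℝ := (A.card : ℝ) / N

/-- **Disproof of the polynomial Bogolyubov statement of constant width.** -/
theorem result : ∀ c : ℝ, 0 < c → ∀ C : ℝ, ∃ (N : ℕ) (A : Finset ℤ),
    A ⊆ Finset.Icc 1 (N : ℤ) ∧ 0 < density A N ∧ density A N ≤ 1 / 2 ∧
      ∀ (Θ : Finset UnitAddCircle) (ρ : ℝ), c ≤ ρ → ρ ≤ 1 / 2 →
        (Θ.card : ℝ) ≤ C * Real.log (1 / density A N) →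
          ¬ bohr Θ ρ N ⊆ twoAMinusTwoA A := by
  intro c hc C
  set Q : ℕ := ⌈2 / c⌉₊ with hQ
  set g : ℕ := ⌈3 * |C|⌉₊ with hg
  obtain ⟨t, ht⟩ : ∃ t : ℕ, t = 200000 + 32 * Q ^ (2 * g) := ⟨_, rfl⟩
  have ht1 : 200000 ≤ t := by omega
  have ht2 : 32 * Q ^ (2 * g) < t := by omega
  obtain ⟨A, hA1, hA2, hA3, hA4⟩ := Pool.Agent.H842R3.Bogo.main_t t ht1
  set d : ℕ := t ^ 4 with hd
  have hd1 : 1 ≤ d := Nat.one_le_pow _ _ (by omega)
  set N : ℕ := (8 * t ^ 2 + 1) ^ d with hN
  have hNpos : 0 < N := by positivity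
  have hNpos' : (0 : ℝ) < N := by exact_mod_cast hNpos
  have hApos : 0 < A.card := by
    have : 0 < (2 * t ^ 2 + 1) ^ d := by positivity
    omega
  have hApos' : (0 : ℝ) < A.card := by exact_mod_cast hApos
  have hN8 : N ≤ 8 ^ d * A.card := by
    have h1 : N ≤ 4 ^ d * (2 * t ^ 2 + 1) ^ d := by
      rw [← mul_pow]
      refine Nat.pow_le_pow_left ?_ d
      omega
    have h2 : 4 ^ d * (2 * t ^ 2 + 1) ^ d ≤ 4 ^ d * (2 * A.card) := Nat.mul_le_mul_left _ hA2
    have h3 : 4 ^ d * 2 ≤ 8 ^ d := by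
      have h4 : 2 ≤ 2 ^ d := Nat.le_self_pow (by omega) 2
      calc 4 ^ d * 2 ≤ 4 ^ d * 2 ^ d := Nat.mul_le_mul_left _ h4
        _ = 8 ^ d := by rw [← mul_pow]; norm_num
    calc N ≤ 4 ^ d * (2 * A.card) := h1.trans h2
      _ = 4 ^ d * 2 * A.card := by ring
      _ ≤ 8 ^ d * A.card := Nat.mul_le_mul_right _ h3
  have h2A : 2 * A.card ≤ N := by
    have h1 : 2 * (2 * t ^ 2 + 1) ^ d ≤ N := by
      have h4 : 2 ≤ 2 ^ d := Nat.le_self_pow (by omega) 2
      calc 2 * (2 * t ^ 2 + 1) ^ d ≤ 2 ^ d * (2 * t ^ 2 + 1) ^ d := Nat.mul_le_mul_right _ h4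
        _ = (2 * (2 * t ^ 2 + 1)) ^ d := by rw [← mul_pow]
        _ ≤ (8 * t ^ 2 + 1) ^ d := by
            refine Nat.pow_le_pow_left ?_ d
            have : 1 ≤ t ^ 2 := Nat.one_le_pow _ _ (by omega)
            omega
    omega
  refine ⟨N, A, hA1, div_pos hApos' hNpos', ?_, ?_⟩
  · unfold density
    rw [div_le_iff₀ hNpos']
    have : (2 * A.card : ℝ) ≤ N := by exact_mod_cast h2A
    linarith
  · intro Θ ρ hcρ hρ hcard hsub
    have hρ0 : 0 < ρ := lt_of_lt_of_le hc hcρ
    have hmain := hA4 Θ ρ hρ0 hρ hsub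
    have hqQ : ⌈2 / ρ⌉₊ ≤ Q := by
      refine Nat.ceil_mono ?_
      exact div_le_div_of_nonneg_left (by norm_num) hc hcρ
    -- the logarithm
    have hlog : Real.log (1 / density A N) ≤ 3 * d := by
      have h1 : 1 / density A N = N / A.card := by
        unfold density
        field_simp
      rw [h1]
      have h2 : (N : ℝ) / A.card ≤ 8 ^ d := by
        rw [div_le_iff₀ hApos']
        exact_mod_cast hN8
      have h3 : Real.log ((N : ℝ) / A.card) ≤ Real.log (8 ^ d) :=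
        Real.log_le_log (div_pos hNpos' hApos') h2
      refine h3.trans ?_
      have h4 : Real.log (8 ^ d) = d * (3 * Real.log 2) := by
        rw [Real.log_pow]
        congr 1
        rw [show (8 : ℝ) = 2 ^ 3 by norm_num, Real.log_pow]
        norm_num
      rw [h4]
      have h5 := Real.log_two_lt_d9
      have h6 : (0 : ℝ) ≤ d := Nat.cast_nonneg d
      nlinarith
    have hlog0 : 0 ≤ Real.log (1 / density A N) := by
      refine Real.log_nonneg ?_
      have h1 : 1 / density A N = N / A.card := by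
        unfold density
        field_simp
      rw [h1, le_div_iff₀ hApos']
      have : (2 * A.card : ℝ) ≤ N := by exact_mod_cast h2A
      linarith
    have hm : Θ.card ≤ g * d := by
      have h1 : (Θ.card : ℝ) ≤ 3 * |C| * d := by
        calc (Θ.card : ℝ) ≤ C * Real.log (1 / density A N) := hcard
          _ ≤ |C| * Real.log (1 / density A N) :=
              mul_le_mul_of_nonneg_right (le_abs_self C) hlog0
          _ ≤ |C| * (3 * d) := mul_le_mul_of_nonneg_left hlog (abs_nonneg C)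
          _ = 3 * |C| * d := by ring
      have h2 : 3 * |C| ≤ (g : ℝ) := Nat.le_ceil _
      have h3 : (Θ.card : ℝ) ≤ (g : ℝ) * d :=
        h1.trans (mul_le_mul_of_nonneg_right h2 (Nat.cast_nonneg d))
      exact_mod_cast h3
    have hQ1 : 1 ≤ Q := by
      rw [hQ, Nat.one_le_ceil_iff]
      positivity
    have h1 : t ^ d ≤ (32 * Q ^ (2 * g)) ^ d := by
      calc t ^ d ≤ 32 ^ d * ⌈2 / ρ⌉₊ ^ (2 * Θ.card) := hmain
        _ ≤ 32 ^ d * Q ^ (2 * Θ.card) := Nat.mul_le_mul_left _ (Nat.pow_le_pow_left hqQ _)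
        _ ≤ 32 ^ d * Q ^ (2 * (g * d)) :=
            Nat.mul_le_mul_left _ (Nat.pow_le_pow_right hQ1 (by omega))
        _ = (32 * Q ^ (2 * g)) ^ d := by rw [mul_pow, ← pow_mul]; congr 2; ring
    have h2 : (32 * Q ^ (2 * g)) ^ d < t ^ d := Nat.pow_lt_pow_left ht2 (by omega)
    omega

end Pool.Agent.Results.MP_3c7b25_co.BogolyubovFails
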